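import Pool.Agent.W2helper31.NM.Form

/-! Inequalities for the multiplicities of plane curves at very general points. -/

set_option autoImplicit false

namespace Pool.Agent.W2helper31.NM

open Pool.Agent.Results.MP_309968_ag.BoundaryRays (MultGE)

/-- the inequality `∑ x_i m_i ≤ c e` for all classes with few values below the maximum -/
def Ineq {n : ℕ} (e : ℕ) (m : Fin n → ℕ) : Prop :=
  ∀ (x : Fin n → ℝ) (c M : ℝ), FewBelow x c M → ∑ i, x i * (m i : ℝ) ≤ c * e

theorem le_of_mul {Q c e : ℝ} (hc : c ^ 2 = Q) (hc0 : 0 < c) (h : Q ≤ c * e) :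
    Q ≤ e ^ 2 := by
  have h1 : c ≤ e := by
    by_contra hcon
    push Not at hcon
    have : c * e < c * c := mul_lt_mul_of_pos_left hcon hc0
    nlinarith
  rw [← hc]
  exact pow_le_pow_left₀ hc0.le h1 2

/-- the inequality with averages -/
theorem average_le {n e : ℕ} {m : Fin n → ℕ} (h : Ineq e m) (B : Finset (Fin n)) (r : ℕ)
    (A : Fin r → Finset (Fin n)) (h36 : 36 ≤ B.card) (hr : 4 * r + 2 ≤ B.card)
    (hAB : ∀ l, Disjoint (A l) B) (hAA : Pairwise fun l l' => Disjoint (A l) (A l'))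
    (hle : ∀ l, (∑ i ∈ A l, (m i : ℝ)) / (A l).card ≤ (∑ i ∈ B, (m i : ℝ)) / B.card) :
    ∑ l, (∑ i ∈ A l, (m i : ℝ)) ^ 2 / (A l).card + (∑ i ∈ B, (m i : ℝ)) ^ 2 / B.card ≤
      (e : ℝ) ^ 2 := by
  classical
  obtain ⟨a, ha⟩ : ∃ a : Fin r → ℝ, ∀ l, a l = (∑ i ∈ A l, (m i : ℝ)) / (A l).card :=
    ⟨_, fun _ => rfl⟩
  obtain ⟨b, hb⟩ : ∃ b : ℝ, b = (∑ i ∈ B, (m i : ℝ)) / B.card := ⟨_, rfl⟩
  have hle' : ∀ l, a l ≤ b := fun l => by rw [ha, hb]; exact hle l
  have ha0 : ∀ l, 0 ≤ a l := fun l => by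
    rw [ha]; exact div_nonneg (Finset.sum_nonneg fun i _ => Nat.cast_nonneg _) (Nat.cast_nonneg _)
  have hB0 : (0 : ℝ) < B.card := by exact_mod_cast (by omega : 0 < B.card)
  have hb0 : 0 ≤ b := by
    rw [hb]; exact div_nonneg (Finset.sum_nonneg fun i _ => Nat.cast_nonneg _) hB0.le
  have hbB : b * B.card = ∑ i ∈ B, (m i : ℝ) := by rw [hb]; field_simp
  have haA : ∀ l, a l * (A l).card = ∑ i ∈ A l, (m i : ℝ) := fun l => by
    rcases Nat.eq_zero_or_pos (A l).card with h0 | h0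
    · rw [h0, Finset.card_eq_zero.1 h0]; simp
    · have : (0 : ℝ) < (A l).card := by exact_mod_cast h0
      rw [ha]; field_simp
  have hLHS : ∑ l, (∑ i ∈ A l, (m i : ℝ)) ^ 2 / (A l).card + (∑ i ∈ B, (m i : ℝ)) ^ 2 / B.card =
      ∑ l, a l * (∑ i ∈ A l, (m i : ℝ)) + b * (∑ i ∈ B, (m i : ℝ)) := by
    congr 1
    · refine Finset.sum_congr rfl fun l _ => ?_
      rw [ha]; ring
    · rw [hb]; ring
  rw [hLHS]
  -- the class
  obtain ⟨x, hx⟩ : ∃ x : Fin n → ℝ, ∀ i, x i = ∑ l, (if i ∈ A l then a l else 0) +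
      (if i ∈ B then b else 0) := ⟨_, fun _ => rfl⟩
  have hxB : ∀ i ∈ B, x i = b := by
    intro i hi
    rw [hx, if_pos hi, Finset.sum_eq_zero, zero_add]
    intro l _
    rw [if_neg fun h1 => (Finset.disjoint_left.1 (hAB l) h1) hi]
  have hxA : ∀ l, ∀ i ∈ A l, x i = a l := by
    intro l i hi
    rw [hx, if_neg fun h1 => (Finset.disjoint_left.1 (hAB l) hi) h1, add_zero,
      Finset.sum_eq_single l, if_pos hi]
    · intro l' _ hne
      rw [if_neg fun h1 => (Finset.disjoint_left.1 (hAA hne) h1) hi]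
    · intro h1; exact absurd (Finset.mem_univ l) h1
  have hx0 : ∀ i, i ∉ B → (∀ l, i ∉ A l) → x i = 0 := by
    intro i hi hi'
    rw [hx, if_neg hi, Finset.sum_eq_zero, zero_add]
    intro l _
    rw [if_neg (hi' l)]
  have hcases : ∀ i, x i = b ∨ (∃ l, x i = a l) ∨ x i = 0 := by
    intro i
    by_cases hi : i ∈ B
    · exact Or.inl (hxB i hi)
    · by_cases hi' : ∃ l, i ∈ A l
      · obtain ⟨l, hl⟩ := hi'
        exact Or.inr (Or.inl ⟨l, hxA l i hl⟩)
      · push Not at hi'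
        exact Or.inr (Or.inr (hx0 i hi hi'))
  have hsum : ∀ h : Fin n → ℝ, ∑ i, x i * h i = ∑ l, a l * (∑ i ∈ A l, h i) +
      b * ∑ i ∈ B, h i := by
    intro h
    have h1 : ∀ i, x i * h i = ∑ l, (if i ∈ A l then a l * h i else 0) +
        (if i ∈ B then b * h i else 0) := by
      intro i
      rw [hx, add_mul, Finset.sum_mul]
      congr 1
      · refine Finset.sum_congr rfl fun l _ => ?_
        split_ifs <;> ring
      · split_ifs <;> ring
    rw [Finset.sum_congr rfl fun i _ => h1 i, Finset.sum_add_distrib, Finset.sum_comm]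
    congr 1
    · refine Finset.sum_congr rfl fun l _ => ?_
      rw [← Finset.sum_filter, Finset.mul_sum]
      refine Finset.sum_congr ?_ fun i _ => rfl
      ext i; simp
    · rw [← Finset.sum_filter, Finset.mul_sum]
      refine Finset.sum_congr ?_ fun i _ => rfl
      ext i; simp
  obtain ⟨Q, hQ⟩ : ∃ Q : ℝ, Q = ∑ l, a l * (∑ i ∈ A l, (m i : ℝ)) +
      b * (∑ i ∈ B, (m i : ℝ)) := ⟨_, rfl⟩
  have hQ1 : ∑ i, x i * (m i : ℝ) = Q := by rw [hQ]; exact hsum _
  have hQ2 : ∑ i, x i ^ 2 = Q := by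
    have h1 : ∑ i, x i ^ 2 = ∑ i, x i * x i := Finset.sum_congr rfl fun i _ => by ring
    rw [h1, hsum, hQ]
    congr 1
    · refine Finset.sum_congr rfl fun l _ => ?_
      rw [Finset.sum_congr rfl fun i hi => hxA l i hi, Finset.sum_const, nsmul_eq_mul, ← haA l]
      ring
    · rw [Finset.sum_congr rfl fun i hi => hxB i hi, Finset.sum_const, nsmul_eq_mul, ← hbB]
      ring
  rw [← hQ]
  rcases hb0.lt_or_eq with hbpos | hbz
  · -- the average over `B` is positive
    have hxnn : ∀ i, 0 ≤ x i := fun i => by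
      rcases hcases i with h1 | ⟨l, h1⟩ | h1 <;> rw [h1]
      · exact hb0
      · exact ha0 l
    have hxb : ∀ i, x i ≤ b := fun i => by
      rcases hcases i with h1 | ⟨l, h1⟩ | h1 <;> rw [h1]
      · exact hle' l
      · exact hb0
    have hQB : (B.card : ℝ) * b ^ 2 ≤ Q := by
      rw [← hQ2]
      have h1 : (B.card : ℝ) * b ^ 2 = ∑ i ∈ B, x i ^ 2 := by
        rw [Finset.sum_congr rfl fun i hi => by rw [hxB i hi], Finset.sum_const, nsmul_eq_mul]
      rw [h1]
      exact Finset.sum_le_sum_of_subset_of_nonneg (Finset.subset_univ B) fun _ _ _ => sq_nonneg _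
    have hb2 : 0 < b ^ 2 := by positivity
    have hQ0 : 0 < Q := lt_of_lt_of_le (by positivity) hQB
    obtain ⟨c, hc⟩ : ∃ c : ℝ, c = √Q := ⟨_, rfl⟩
    have hc2 : c ^ 2 = Q := by rw [hc]; exact Real.sq_sqrt hQ0.le
    have hc0 : 0 < c := by rw [hc]; exact Real.sqrt_pos.2 hQ0
    have h36' : (36 : ℝ) ≤ B.card := by exact_mod_cast h36
    have hr' : 4 * (r : ℝ) + 2 ≤ B.card := by exact_mod_cast hr
    have hsmall : smallValues x b ⊆ Finset.univ.image a := by
      intro t ht
      obtain ⟨⟨i, hi⟩, h1, h2⟩ := mem_small.1 ht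
      rw [Finset.mem_image]
      rcases hcases i with h3 | ⟨l, h3⟩ | h3
      · rw [← hi, h3] at h2; exact absurd h2 (lt_irrefl _)
      · exact ⟨l, Finset.mem_univ _, by rw [← h3, hi]⟩
      · rw [← hi, h3] at h1; exact absurd h1 (lt_irrefl _)
    have hcard : (smallValues x b).card ≤ r := by
      refine (Finset.card_le_card hsmall).trans (Finset.card_image_le.trans ?_)
      rw [Finset.card_univ, Fintype.card_fin]
    have hcard' : ((smallValues x b).card : ℝ) ≤ r := by exact_mod_cast hcard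
    have hfew : FewBelow x c b := by
      refine ⟨hbpos, hxnn, hxb, by rw [hQ2, hc2], Or.inr (Or.inr ?_), ?_, ?_⟩
      · have h1 : (6 * b) ^ 2 ≤ c ^ 2 := by rw [hc2]; nlinarith
        exact le_of_sq_le_sq h1 hc0.le
      · rw [hc2]; nlinarith
      · refine (Finset.card_filter_le _ _).trans (hcard.trans ?_)
        have h1 : B.card ≤ count x b := Finset.card_le_card fun i hi =>
          Finset.mem_filter.2 ⟨Finset.mem_univ _, hxB i hi⟩
        omega
    have h1 := h x c b hfew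
    rw [hQ1] at h1
    exact le_of_mul hc2 hc0 h1
  · -- everything vanishes
    have h1 : Q = 0 := by
      rw [hQ, ← hbz, zero_mul, add_zero]
      refine Finset.sum_eq_zero fun l _ => ?_
      have h2 : a l = 0 := le_antisymm (by rw [hbz]; exact hle' l) (ha0 l)
      rw [h2, zero_mul]
    rw [h1]
    positivity

/-- curves whose own multiplicities have few values below the maximum -/
theorem own_le {n e W : ℕ} {m : Fin n → ℕ} (h : Ineq e m) (hW : ∀ i, m i ≤ W)
    (hdeg : ∑ i, m i ^ 2 = 16 * W ^ 2 ∨ ∑ i, m i ^ 2 = 25 * W ^ 2 ∨ 36 * W ^ 2 ≤ ∑ i, m i ^ 2)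
    (harea : (4 * ((Finset.univ.image m).filter fun t => 0 < t ∧ t < W).card + 2) * W ^ 2 ≤
      ∑ i, m i ^ 2)
    (hlight : (((Finset.univ.image m).filter fun t => 0 < t ∧ t < W).filter fun t =>
      (Finset.univ.filter fun i => m i = t).card * t ≤ W).card ≤
        (Finset.univ.filter fun i => m i = W).card) : ∑ i, m i ^ 2 ≤ e ^ 2 := by
  classical
  rcases Nat.eq_zero_or_pos W with hW0 | hW0
  · have : ∑ i, m i ^ 2 = 0 := Finset.sum_eq_zero fun i _ => by
      have := hW i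
      have h1 : m i = 0 := by omega
      rw [h1]; rfl
    rw [this]; exact Nat.zero_le _
  have hWR : (0 : ℝ) < W := by exact_mod_cast hW0
  obtain ⟨Q, hQ⟩ : ∃ Q : ℕ, Q = ∑ i, m i ^ 2 := ⟨_, rfl⟩
  rw [← hQ] at hdeg harea ⊢
  have hQR : (Q : ℝ) = ∑ i, (m i : ℝ) ^ 2 := by rw [hQ]; push_cast; rfl
  obtain ⟨c, hc⟩ : ∃ c : ℝ, c = √(Q : ℝ) := ⟨_, rfl⟩
  have hc2 : c ^ 2 = Q := by rw [hc]; exact Real.sq_sqrt (Nat.cast_nonneg Q)
  have hcn : 0 ≤ c := by rw [hc]; exact Real.sqrt_nonneg _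
  have hsmall : smallValues (fun i => (m i : ℝ)) W =
      ((Finset.univ.image m).filter fun t => 0 < t ∧ t < W).image fun t : ℕ => (t : ℝ) := by
    ext t
    rw [mem_small, Finset.mem_image]
    constructor
    · rintro ⟨⟨i, rfl⟩, h1, h2⟩
      exact ⟨m i, Finset.mem_filter.2 ⟨Finset.mem_image_of_mem _ (Finset.mem_univ _),
        by exact_mod_cast h1, by exact_mod_cast h2⟩, rfl⟩
    · rintro ⟨s, hs, rfl⟩
      obtain ⟨h1, h2, h3⟩ := Finset.mem_filter.1 hs
      obtain ⟨i, -, hi⟩ := Finset.mem_image.1 h1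
      exact ⟨⟨i, by rw [hi]⟩, by exact_mod_cast h2, by exact_mod_cast h3⟩
  have hcount : ∀ t : ℕ, count (fun i => (m i : ℝ)) t =
      (Finset.univ.filter fun i => m i = t).card := by
    intro t
    unfold count
    congr 1
    ext i
    simp
  have hcard : (smallValues (fun i => (m i : ℝ)) W).card =
      ((Finset.univ.image m).filter fun t => 0 < t ∧ t < W).card := by
    rw [hsmall]
    exact Finset.card_image_of_injective _ Nat.cast_injective
  have hfew : FewBelow (fun i => (m i : ℝ)) c W := by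
    refine ⟨hWR, fun i => Nat.cast_nonneg _, fun i => by exact_mod_cast hW i,
      by rw [hc2, hQR], ?_, ?_, ?_⟩
    · rcases hdeg with h1 | h1 | h1
      · left
        have h2 : c ^ 2 = (4 * (W : ℝ)) ^ 2 := by rw [hc2, h1]; push_cast; ring
        exact (sq_eq_sq₀ hcn (by positivity)).1 h2
      · right; left
        have h2 : c ^ 2 = (5 * (W : ℝ)) ^ 2 := by rw [hc2, h1]; push_cast; ring
        exact (sq_eq_sq₀ hcn (by positivity)).1 h2
      · right; right
        have h2 : (6 * (W : ℝ)) ^ 2 ≤ c ^ 2 := by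
          rw [hc2]
          have : ((36 * W ^ 2 : ℕ) : ℝ) ≤ Q := by exact_mod_cast h1
          push_cast at this
          linarith
        exact le_of_sq_le_sq h2 hcn
    · rw [hcard, hc2]
      exact_mod_cast harea
    · rw [hcount W]
      refine le_trans (le_of_eq ?_) hlight
      rw [hsmall, Finset.filter_image, Finset.card_image_of_injective _ Nat.cast_injective]
      congr 1
      ext t
      simp only [Finset.mem_filter, hcount]
      exact and_congr_right fun _ => ⟨fun h => by exact_mod_cast h, fun h => by exact_mod_cast h⟩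
  have hQ0 : (0 : ℝ) < c := by
    rcases hfew.deg with h1 | h1 | h1 <;> linarith
  have h1 := h _ c W hfew
  have h2 : ∑ i, (m i : ℝ) * (m i : ℝ) = (Q : ℝ) := by
    rw [hQR]; exact Finset.sum_congr rfl fun i _ => by ring
  rw [h2] at h1
  have h3 := le_of_mul hc2 hQ0 h1
  exact_mod_cast h3

end Pool.Agent.W2helper31.NM
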