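import Pool.Agent.W2helper31.NM.Main
import Pool.Agent.Results.MP_309968_ag.FewCoefficients

/-! The inequality for all forms through very general points. -/

set_option autoImplicit false

namespace Pool.Agent.W2helper31.NM

open Pool.Agent.H932R3 Pool.Agent.H350R3 Pool.Agent.H350R3.GR
open Pool.Agent.Results.MP_309968_ag.BoundaryRays (MultGE)
open Pool.Agent.Results.MP_309968_ag.FewCoefficients (noForm_ext exists_supp)

/-- The values of the coefficients strictly between `0` and `M`. -/
noncomputable def smallValues {n : ℕ} (x : Fin n → ℝ) (M : ℝ) : Finset ℝ :=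
  (Finset.univ.image x).filter fun t => 0 < t ∧ t < M

/-- The number of coefficients equal to `t`. -/
noncomputable def count {n : ℕ} (x : Fin n → ℝ) (t : ℝ) : ℕ :=
  (Finset.univ.filter fun i => x i = t).card

/-- `c ^ 2 = ∑ x_i ^ 2`, `0 ≤ x_i ≤ M`, and `c = 4 M`, `c = 5 M` or `c ≥ 6 M`. If the `x_i` have
`r` distinct values strictly between `0` and `M`, then `(4 r + 2) M ^ 2 ≤ c ^ 2`. The number of those
of these values `t` which are attained at most `M / t` times is at most the number of the `x_i`
equal to `M`. -/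
structure FewBelow {n : ℕ} (x : Fin n → ℝ) (c M : ℝ) : Prop where
  pos : 0 < M
  nonneg : ∀ i, 0 ≤ x i
  le : ∀ i, x i ≤ M
  sq : ∑ i, x i ^ 2 = c ^ 2
  deg : c = 4 * M ∨ c = 5 * M ∨ 6 * M ≤ c
  area : (4 * ((smallValues x M).card : ℝ) + 2) * M ^ 2 ≤ c ^ 2
  light : ((smallValues x M).filter fun t => (count x t : ℝ) * t ≤ M).card ≤ count x M

theorem mem_small {n : ℕ} {x : Fin n → ℝ} {M t : ℝ} :
    t ∈ smallValues x M ↔ (∃ i, x i = t) ∧ 0 < t ∧ t < M := by
  unfold smallValues
  rw [Finset.mem_filter, Finset.mem_image]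
  simp

/-- the inequality for all forms -/
theorem form_le (n : ℕ) : ∃ f : ℕ → MvPolynomial (Fin n × Fin 2) ℂ, (∀ k, f k ≠ 0) ∧
    ∀ p : Fin n → Fin 2 → ℂ,
      (∀ k, MvPolynomial.eval (fun q : Fin n × Fin 2 => p q.1 q.2) (f k) ≠ 0) →
      ∀ (x : Fin n → ℝ) (c M : ℝ), FewBelow x c M →
        ∀ (F : MvPolynomial (Fin 3) ℂ) (e : ℕ) (m : Fin n → ℕ), F.IsHomogeneous e → F ≠ 0 →
          (∀ i, MultGE (p i) F (m i)) → ∑ i, x i * (m i : ℝ) ≤ c * e := by
  classical
  obtain ⟨f, hf, hf'⟩ := exists_conds_all (K := ℂ) n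
  refine ⟨f, hf, fun p hp x c M hx F e m hF hF0 hm => ?_⟩
  have hM := hx.pos
  have hc0 : 0 < c := by
    rcases hx.deg with h | h | h <;> linarith
  obtain ⟨N, g, hg, hg0, hgs, hsum⟩ := exists_supp x
  have hN : 0 < N := by
    rcases Nat.eq_zero_or_pos N with hN | hN
    · subst hN
      have h1 := hsum (fun i => x i ^ 2) (fun i hi => by simp only [hi]; norm_num)
      rw [Finset.univ_eq_empty, Finset.sum_empty, hx.sq] at h1
      have : 0 < c ^ 2 := by positivity
      linarith
    · exact hN
  obtain ⟨y, hy⟩ : ∃ y : Fin N → ℝ, ∀ j, y j = x (g j) := ⟨_, fun _ => rfl⟩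
  have hy0 : ∀ j, 0 < y j := fun j => by
    rw [hy]; exact lt_of_le_of_ne (hx.nonneg _) (Ne.symm (hg0 j))
  have hyM : ∀ j, y j ≤ M := fun j => by rw [hy]; exact hx.le _
  have hymem : ∀ j, y j = M ∨ y j ∈ smallValues x M := fun j => by
    rcases (hyM j).lt_or_eq with h | h
    · exact Or.inr (mem_small.2 ⟨⟨g j, (hy j).symm⟩, hy0 j, h⟩)
    · exact Or.inl h
  have hysq : ∑ j, y j ^ 2 = c ^ 2 := by
    rw [← hx.sq, ← hsum (fun i => x i ^ 2) (fun i hi => by simp only [hi]; norm_num)]
    exact Finset.sum_congr rfl fun j _ => by rw [hy j]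
  have hcount : ∀ t : ℝ, 0 < t → (Finset.univ.filter fun j => y j = t).card = count x t := by
    intro t ht
    have h1 := hsum (fun i => if x i = t then (1 : ℝ) else 0) (fun i hi => by
      simp only [hi]
      rw [if_neg ht.ne])
    unfold count
    rw [Finset.sum_boole] at h1
    have h2 : (Finset.univ.filter fun j => y j = t) =
        Finset.univ.filter fun j => x (g j) = t := by
      ext j; simp only [hy]
    rw [h2]
    have h3 : ∑ i, (if x i = t then (1 : ℝ) else 0) =
        ((Finset.univ.filter fun i => x i = t).card : ℝ) := by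
      rw [Finset.sum_boole]
    rw [h3] at h1
    exact_mod_cast h1
  have hnf : NB.Nf ℂ y c := by
    rcases (smallValues x M).eq_empty_or_nonempty with hV | hV
    · have hall : ∀ j, y j = M := fun j => by
        rcases hymem j with h | h
        · exact h
        · rw [hV] at h; exact absurd h (Finset.notMem_empty _)
      refine nf_main hN hM hy0 {M / 2} (Finset.singleton_nonempty _) (fun t ht => ?_)
        (fun j => Or.inl (hall j)) ?_ ?_ hysq hx.deg
      · rw [Finset.mem_singleton] at ht
        rw [ht]; constructor <;> linarith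
      · refine (Finset.card_filter_le _ _).trans ?_
        rw [Finset.card_singleton, Nat.succ_le_iff, Finset.card_pos]
        exact ⟨⟨0, hN⟩, Finset.mem_filter.2 ⟨Finset.mem_univ _, hall _⟩⟩
      · rw [Finset.card_singleton, hysq]
        push_cast
        rcases hx.deg with h | h | h <;> nlinarith
    · refine nf_main hN hM hy0 (smallValues x M) hV (fun t ht => (mem_small.1 ht).2) hymem ?_ ?_
        hysq hx.deg
      · rw [hcount M hM]
        refine le_trans (Finset.card_le_card fun t ht => ?_) hx.light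
        rw [Finset.mem_filter] at ht ⊢
        refine ⟨ht.1, ?_⟩
        rw [← hcount t (mem_small.1 ht.1).2.1]
        exact ht.2
      · rw [hysq]; exact hx.area
  by_contra hcon
  push Not at hcon
  have e1 : ∑ j, y j * (m (g j) : ℝ) = ∑ i, x i * (m i : ℝ) := by
    rw [← hsum (fun i => x i * (m i : ℝ)) (fun i hi => by simp only [hi, zero_mul])]
    exact Finset.sum_congr rfl fun j _ => by rw [hy j]
  obtain ⟨z, hz⟩ := hnf (fun j => m (g j)) e (by rw [e1]; exact hcon)
  refine hF0 (hf' p hp e m ⟨_, noForm_ext hg hz⟩ F hF ?_)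
  unfold ptJ vIdeal
  rw [Ideal.mem_iInf]
  intro i
  exact mem_of_support (p := p i) (hm i)

end Pool.Agent.W2helper31.NM
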