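import Pool.Agent.W2helper31.NM.Tube

/-! Weights with few values below the maximum. -/

set_option autoImplicit false

namespace Pool.Agent.W2helper31.NM

open Finset Pool.Agent.TH176.Nag Pool.Agent.TH181.Nag Pool.Agent.TH146.MN

/-- donors for the light values -/
theorem donors {ι : Type} [Fintype ι] [DecidableEq ι] (T : Finset ι) {V L : Finset ℝ}
    (hL : L ⊆ V) (hV : V.Nonempty) (hcard : L.card ≤ T.card) :
    ∃ d : ι → V, ∀ t ∈ L, ∃ i ∈ T, (d i : ℝ) = t := by
  classical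
  obtain ⟨v0, hv0⟩ := hV
  obtain ⟨f⟩ : Nonempty (L ↪ T) := Function.Embedding.nonempty_of_card_le (by
    rw [Fintype.card_coe, Fintype.card_coe]; exact hcard)
  refine ⟨fun i => if h : ∃ l : L, (f l : ι) = i then ⟨h.choose.1, hL h.choose.2⟩ else ⟨v0, hv0⟩,
    fun t ht => ⟨(f ⟨t, ht⟩ : ι), (f ⟨t, ht⟩).2, ?_⟩⟩
  have h : ∃ l : L, (f l : ι) = (f ⟨t, ht⟩ : ι) := ⟨_, rfl⟩
  have h1 := h.choose_spec
  have h2 := f.injective (Subtype.ext h1)
  simp only [dif_pos h, h2]

/-- emptiness on all slopes if few values are smaller than the maximum -/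
theorem U_main {ι : Type} [Fintype ι] {x : ι → ℝ} {W : ℝ} (hW : 0 < W) (hx0 : ∀ i, 0 < x i)
    (V : Finset ℝ) (hVne : V.Nonempty) (hV : ∀ t ∈ V, 0 < t ∧ t < W)
    (hmem : ∀ i, x i = W ∨ x i ∈ V)
    (hlight : (V.filter fun t =>
      ((Finset.univ.filter fun i => x i = t).card : ℝ) * t ≤ W).card ≤
        (Finset.univ.filter fun i => x i = W).card)
    (hmass : (4 * (V.card : ℝ) + 2) * W ^ 2 ≤ ∑ i, x i ^ 2) : UU' x (2 * W) := by
  classical
  intro w s hs hw μ ν hμν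
  obtain ⟨S2, hS2⟩ : ∃ S2 : ℝ, S2 = ∑ i, x i ^ 2 := ⟨_, rfl⟩
  have hS20 : 0 < S2 := by
    rw [hS2]
    refine lt_of_lt_of_le ?_ hmass
    positivity
  rw [← hS2] at hμν ⊢
  obtain ⟨κ', hκ⟩ : ∃ κ' : ℝ, κ' = S2 / (4 * W ^ 2) := ⟨_, rfl⟩
  have hκ0 : 0 < κ' := by rw [hκ]; positivity
  have hμκ : μ + ν = κ' := by rw [hμν, hκ]; ring
  apply TS.toRT (by rw [hμκ]; exact hκ0)
  rw [hμκ]
  have hsqS : √S2 * √S2 = S2 := Real.mul_self_sqrt hS20.le
  have hsqκ : √κ' = √S2 / (2 * W) := by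
    rw [hκ, show 4 * W ^ 2 = (2 * W) ^ 2 by ring, Real.sqrt_div hS20.le,
      Real.sqrt_sq (by positivity)]
  refine TS.of_weighted (e := s * (S2 / (2 * W))) hκ0 (by
    rw [hsqκ]
    have : s * √S2 * (√S2 / (2 * W)) = s * ((√S2 * √S2) / (2 * W)) := by ring
    rw [this, hsqS]) ?_
  -- the groups
  obtain ⟨d, hd⟩ := donors (Finset.univ.filter fun i => x i = W) (Finset.filter_subset _ V) hVne
    hlight
  obtain ⟨e⟩ : Nonempty (V ≃ Fin V.card) := ⟨V.equivFin⟩
  obtain ⟨φ, hφ1, hφ2⟩ : ∃ φ : ι → V, (∀ i, x i ∈ V → (φ i : ℝ) = x i) ∧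
      ∀ i, x i ∉ V → φ i = d i := by
    refine ⟨fun i => if h : x i ∈ V then ⟨x i, h⟩ else d i, fun i h => ?_, fun i h => ?_⟩
    · simp only [dif_pos h]
    · simp only [dif_neg h]
  obtain ⟨gr, hgr⟩ : ∃ gr : ι → Fin V.card, ∀ i l, gr i = l ↔ φ i = e.symm l :=
    ⟨fun i => e (φ i), fun i l => by rw [e.eq_symm_apply]⟩
  have hg : 0 < V.card := Finset.card_pos.2 hVne
  obtain ⟨T, hT⟩ : ∃ T : Fin V.card → ℝ, ∀ l, T l = (e.symm l : ℝ) := ⟨_, fun _ => rfl⟩
  have hTV : ∀ l, T l ∈ V := fun l => by rw [hT]; exact (e.symm l).2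
  have hWV : W ∉ V := fun h => lt_irrefl _ (hV W h).2
  have hval : ∀ l, ∀ i : {i // gr i = l}, x i.1 = W ∨ x i.1 = T l := by
    intro l i
    rcases hmem i.1 with h | h
    · exact Or.inl h
    · right
      rw [← hφ1 _ h, (hgr _ _).1 i.2, hT]
  have hin : ∀ l i, x i = T l → gr i = l := by
    intro l i h
    rw [hgr]
    apply Subtype.ext
    rw [hφ1 i (by rw [h]; exact hTV l), h, hT]
  -- each group is good
  have hgood : ∀ l, 0 < Fintype.card {i : {i // gr i = l} // x i.1 = W} ∨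
      W < (Fintype.card {i : {i // gr i = l} // ¬ x i.1 = W} : ℝ) * T l := by
    intro l
    by_cases hl : ((Finset.univ.filter fun i => x i = T l).card : ℝ) * T l ≤ W
    · left
      obtain ⟨i, hi, hdi⟩ := hd (T l) (Finset.mem_filter.2 ⟨hTV l, hl⟩)
      have hiW : x i = W := (Finset.mem_filter.1 hi).2
      refine Fintype.card_pos_iff.2 ⟨⟨⟨i, ?_⟩, hiW⟩⟩
      rw [hgr, hφ2 i (by rw [hiW]; exact hWV)]
      apply Subtype.ext
      rw [hdi, hT]
    · right
      rw [not_le] at hl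
      refine lt_of_lt_of_le hl (mul_le_mul_of_nonneg_right ?_ (hV _ (hTV l)).1.le)
      have h1 : (Finset.univ.filter fun i => x i = T l).card ≤
          Fintype.card {i : {i // gr i = l} // ¬ x i.1 = W} := by
        rw [← Fintype.card_subtype]
        refine Fintype.card_le_of_injective
          (fun j : {i // x i = T l} => (⟨⟨j.1, hin _ _ j.2⟩, by
            simp only [j.2]
            exact (hV _ (hTV l)).2.ne⟩ : {i : {i // gr i = l} // ¬ x i.1 = W})) ?_
        intro j j' h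
        simp only [Subtype.mk.injEq] at h
        exact Subtype.ext h
      exact_mod_cast h1
  -- group sums
  obtain ⟨Sg, hSg⟩ : ∃ Sg : Fin V.card → ℝ, ∀ l, Sg l = ∑ i : {i // gr i = l}, x i.1 ^ 2 :=
    ⟨_, fun _ => rfl⟩
  have hSg0 : ∀ l, 0 < Sg l := fun l => by
    rw [hSg]
    refine Finset.sum_pos (fun i _ => by have := hx0 i.1; positivity) ?_
    rcases hgood l with h | h
    · obtain ⟨i⟩ := Fintype.card_pos_iff.1 h
      exact ⟨i.1, Finset.mem_univ _⟩
    · have h1 : 0 < Fintype.card {i : {i // gr i = l} // ¬ x i.1 = W} := by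
        by_contra hcon
        have h2 : Fintype.card {i : {i // gr i = l} // ¬ x i.1 = W} = 0 := by omega
        rw [h2] at h
        push_cast at h
        rw [zero_mul] at h
        exact absurd h (not_lt.2 hW.le)
      obtain ⟨i⟩ := Fintype.card_pos_iff.1 h1
      exact ⟨i.1, Finset.mem_univ _⟩
  have hSgsum : ∑ l, Sg l = S2 := by
    rw [hS2, ← Finset.sum_fiberwise Finset.univ gr]
    refine Finset.sum_congr rfl fun l _ => ?_
    rw [hSg]
    exact (Finset.sum_subtype (Finset.univ.filter fun i => gr i = l) (fun i => by simp)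
      (fun i => x i ^ 2)).symm
  have hκg : 2 * (V.card : ℝ) + 1 ≤ 2 * κ' := by
    rw [← hS2] at hmass
    have h4 : (V.card : ℝ) + 1 / 2 ≤ κ' := by
      rw [hκ, le_div_iff₀ (by positivity)]
      linarith
    linarith
  -- the tubes
  have htube : ∀ l, ∃ a b : ℝ, 0 < a ∧ 0 < b ∧ a + b = 1 ∧
      ∀ α : ℝ, Emp (fun i : {i // gr i = l} => w i.1)
        (Reg α (α + Sg l / W ^ 2 * (s * W)) (Sg l / W ^ 2 * a) (Sg l / W ^ 2 * b)) := by
    intro l
    obtain ⟨h1, h2⟩ := hV _ (hTV l)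
    exact tube_pair (x := fun i : {i // gr i = l} => x i.1) hs h1 h2 (hval l) (hgood l)
      (fun i => hw i.1) (by rw [hSg])
  choose a b ha hb hab hE using htube
  refine Emp_groups hg gr (a := a) (b := b) (γ := fun l => Sg l / S2) hκg (by positivity) ha hb
    hab (fun l => div_pos (hSg0 l) hS20) ?_ ?_
  · rw [← Finset.sum_div, hSgsum]; exact div_self hS20.ne'
  · intro l
    have h1 := hE l (-(2 * a l * (Sg l / S2) * (s * (S2 / (2 * W)))))
    have e1 : -(2 * a l * (Sg l / S2) * (s * (S2 / (2 * W)))) + Sg l / W ^ 2 * (s * W) =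
        2 * b l * (Sg l / S2) * (s * (S2 / (2 * W))) := by
      have h2 : b l = 1 - a l := by have := hab l; linarith
      rw [h2]
      field_simp
      ring
    have e2 : 4 * κ' * (Sg l / S2) * a l = Sg l / W ^ 2 * a l := by
      rw [hκ]; field_simp
    have e3 : 4 * κ' * (Sg l / S2) * b l = Sg l / W ^ 2 * b l := by
      rw [hκ]; field_simp
    rw [e1] at h1
    rw [e2, e3]
    exact h1

/-- the class of self-intersection zero with few values below the maximum is nef -/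
theorem nf_main {n : ℕ} {x : Fin n → ℝ} {W c : ℝ} (hn : 0 < n) (hW : 0 < W)
    (hx0 : ∀ i, 0 < x i)
    (V : Finset ℝ) (hVne : V.Nonempty) (hV : ∀ t ∈ V, 0 < t ∧ t < W)
    (hmem : ∀ i, x i = W ∨ x i ∈ V)
    (hlight : (V.filter fun t =>
      ((Finset.univ.filter fun i => x i = t).card : ℝ) * t ≤ W).card ≤
        (Finset.univ.filter fun i => x i = W).card)
    (hmass : (4 * (V.card : ℝ) + 2) * W ^ 2 ≤ ∑ i, x i ^ 2)
    (hsq : ∑ i, x i ^ 2 = c ^ 2) (hc : c = 4 * W ∨ c = 5 * W ∨ 6 * W ≤ c) :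
    Pool.Agent.H350R3.NB.Nf ℂ x c := by
  have hc0 : 0 < c := by
    rcases hc with h | h | h <;> linarith
  have hU := U_main hW hx0 V hVne hV hmem hlight hmass
  refine NF.nf_of_star x hx0 hc0 hsq fun w d hw => ?_
  rcases hc with h | h | h
  · exact star_spec hx0 ⟨⟨0, hn⟩⟩ hW (Or.inl rfl) h hsq hU w d hw
  · exact star_spec hx0 ⟨⟨0, hn⟩⟩ hW (Or.inr (Or.inl rfl)) h hsq hU w d hw
  · exact star_rep' hx0 ⟨⟨0, hn⟩⟩ hW h hsq hU w d hw

end Pool.Agent.W2helper31.NM
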