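import Pool.Agent.TH146.MN.Lev
import Pool.Agent.TH207.NC.Fun

/-! A tube for a block of largest weight and a group of smaller weight. -/

set_option autoImplicit false

namespace Pool.Agent.W2helper31.NM

open Finset Pool.Agent.TH176.Nag Pool.Agent.TH207.NC

variable {ι κ : Type} [Fintype ι] [Fintype κ]

/-- cutting a corner off and flattening along the second diagonal -/
theorem TF.second {s μ c x t : ℝ} {L : ι → ℝ} {L' : κ → ℝ} (hs : 0 < s) (ht : 0 ≤ t)
    (hc0 : 0 < c * x) (u v : ℤ) (hc : IsCoprime u v)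
    (hu : 0 ≤ u) (hq : t * x = u * μ + v) (hx : 0 ≤ x) (h1 : x ≤ u) (h2 : t * x ≤ s * u)
    (h' : TF t μ L' (c * x))
    (h : TF (s * (u : ℝ) ^ 2 - t * x ^ 2) ((u - x) * (t * x)) L c) :
    TF s μ (Sum.elim L' L) (c * u) := by
  intro α β w hw
  rw [Fintype.sum_sum_type] at hw
  simp only [Sum.elim_inl, Sum.elim_inr] at hw
  have key := h'.absorb (w := fun i => w (Sum.inr i)) hc0 (fun i => w (Sum.inl i)) (α := α)
    (β := β) (ν := s - μ) (by linarith) ?_
  · have e : Sum.elim (fun i => w (Sum.inl i)) (fun i => w (Sum.inr i)) = w := by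
      funext i
      rcases i with i | i <;> rfl
    rwa [e] at key
  obtain ⟨B, hB⟩ : ∃ B : ℝ, B = (∑ i, L' i * (w (Sum.inl i) : ℝ)) / (c * x) := ⟨_, rfl⟩
  rw [← hB]
  have hB' : ∑ i, L' i * (w (Sum.inl i) : ℝ) = c * x * B := by
    rw [hB, mul_div_assoc', mul_div_cancel_left₀ _ hc0.ne']
  rw [hB'] at hw
  refine Emp_second (x := x) u v hc hu ht hx hq h1 ?_ ?_
  · rw [← hq]; linarith
  have e : (u : ℝ) * (u * (μ + (s - μ)) - t * x) =
      s * (u : ℝ) ^ 2 - t * x ^ 2 - (u - x) * (t * x) := by ring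
  rw [e]
  apply h
  linarith

/-- the points of weight `W` together with `k` points of weight `y`, where `k y ≤ W`, form a tube -/
theorem TF.light {W y : ℝ} (hy : 0 < y) (hyW : y < W) (hι : 1 ≤ Fintype.card ι)
    (hκ : 1 ≤ Fintype.card κ) (hk : (Fintype.card κ : ℝ) * y ≤ W) :
    TF ((Fintype.card κ : ℝ) * (y / W) ^ 2 + Fintype.card ι) (Fintype.card κ * (y / W))
      (Sum.elim (fun _ : κ => y) (fun _ : ι => W)) W := by
  have hW : 0 < W := hy.trans hyW
  have hι' : (1 : ℝ) ≤ Fintype.card ι := by exact_mod_cast hι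
  have hκ' : (1 : ℝ) ≤ Fintype.card κ := by exact_mod_cast hκ
  have hr0 : 0 < y / W := div_pos hy hW
  have hr1 : y / W < 1 := by rw [div_lt_one hW]; exact hyW
  have hkr : (Fintype.card κ : ℝ) * (y / W) ≤ 1 := by
    rw [← mul_div_assoc, div_le_one hW]; exact hk
  have hWy : W * (y / W) = y := by field_simp
  have h1 : TF (Fintype.card κ : ℝ) ((Fintype.card κ : ℝ) * (y / W)) (fun _ : κ => y)
      (W * (y / W)) := by
    have := (TF.points hκ ((Fintype.card κ : ℝ) * (y / W))).scale hy
    simpa [hWy] using this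
  have h2 : TF (((Fintype.card κ : ℝ) * (y / W) ^ 2 + Fintype.card ι) * ((1 : ℤ) : ℝ) ^ 2 -
      (Fintype.card κ : ℝ) * (y / W) ^ 2)
      ((((1 : ℤ) : ℝ) - y / W) * ((Fintype.card κ : ℝ) * (y / W))) (fun _ : ι => W) W := by
    have e : ((Fintype.card κ : ℝ) * (y / W) ^ 2 + Fintype.card ι) * ((1 : ℤ) : ℝ) ^ 2 -
      (Fintype.card κ : ℝ) * (y / W) ^ 2 = Fintype.card ι := by push_cast; ring
    rw [e]
    have := (TF.points hι ((((1 : ℤ) : ℝ) - y / W) *
      ((Fintype.card κ : ℝ) * (y / W)))).scale hW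
    simpa using this
  have h3 := TF.second (s := (Fintype.card κ : ℝ) * (y / W) ^ 2 + Fintype.card ι)
    (μ := Fintype.card κ * (y / W)) (c := W) (x := y / W) (t := Fintype.card κ)
    (L := fun _ : ι => W) (L' := fun _ : κ => y) (by positivity) (by positivity)
    (by rw [hWy]; exact hy) 1 0 isCoprime_one_left (by norm_num) (by push_cast; ring) hr0.le
    (by push_cast; exact hr1.le) (by
      push_cast
      have : 0 ≤ (Fintype.card κ : ℝ) * (y / W) ^ 2 := by positivity
      linarith) h1 h2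
  simpa using h3

open Pool.Agent.TH146.MN in
/-- a light group and points of the largest weight in a tube -/
theorem tube_light {x : ι → ℝ} {w : ι → ℕ} {W y s : ℝ} (hs : 0 < s)
    (hy : 0 < y) (hyW : y < W) (hx : ∀ i, x i = W ∨ x i = y)
    (htop : 0 < Fintype.card {i // x i = W}) (hne : 0 < Fintype.card {i // ¬ x i = W})
    (hk : (Fintype.card {i // ¬ x i = W} : ℝ) * y ≤ W) (hw : ∀ i, s * x i < w i) {K : ℝ}
    (hK : K = (∑ i, x i ^ 2) / W ^ 2) :
    ∃ a b : ℝ, 0 < a ∧ 0 < b ∧ a + b = 1 ∧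
      ∀ α : ℝ, Emp w (Reg α (α + K * (s * W)) (K * a) (K * b)) := by
  classical
  have hW : 0 < W := hy.trans hyW
  have hx0 : ∀ i, 0 < x i := fun i => by rcases hx i with h | h <;> rw [h] <;> assumption
  have h1 := TF.light (ι := {i // x i = W}) (κ := {i // ¬ x i = W}) hy hyW htop hne hk
  obtain ⟨e, he⟩ : ∃ e : ι ≃ {i // ¬ x i = W} ⊕ {i // x i = W},
      e = (Equiv.sumCompl (fun i => x i = W)).symm.trans (Equiv.sumComm _ _) := ⟨_, rfl⟩
  have h2 := TF.equiv e h1
  have h3 : (fun j => Sum.elim (fun _ : {i // ¬ x i = W} => y) (fun _ : {i // x i = W} => W)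
      (e j)) = x := by
    funext j
    rw [he]
    by_cases hj : x j = W
    · have h4 := Equiv.sumCompl_symm_apply_of_pos (p := fun i => x i = W) hj
      simp only [Equiv.trans_apply, h4, Equiv.sumComm_apply, Sum.swap_inl, Sum.elim_inr, hj]
    · have h4 := Equiv.sumCompl_symm_apply_of_neg (p := fun i => x i = W) hj
      simp only [Equiv.trans_apply, h4, Equiv.sumComm_apply, Sum.swap_inr, Sum.elim_inl]
      exact ((hx j).resolve_left hj).symm
  rw [h3] at h2
  obtain ⟨k, hkdef⟩ : ∃ k : ℝ, k = (Fintype.card {i // ¬ x i = W} : ℝ) := ⟨_, rfl⟩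
  obtain ⟨q, hqdef⟩ : ∃ q : ℝ, q = (Fintype.card {i // x i = W} : ℝ) := ⟨_, rfl⟩
  rw [← hkdef] at hk h2
  rw [← hqdef] at h2
  have hk1 : 1 ≤ k := by rw [hkdef]; exact_mod_cast hne
  have hq1 : 1 ≤ q := by rw [hqdef]; exact_mod_cast htop
  have hsum : ∑ i, x i ^ 2 = k * y ^ 2 + q * W ^ 2 := by
    rw [← (Equiv.sumCompl (fun i => x i = W)).sum_comp (fun i => x i ^ 2), Fintype.sum_sum_type,
      add_comm]
    congr 1
    · have h5 : ∀ i : {i // ¬ x i = W}, x ((Equiv.sumCompl (fun i => x i = W)) (Sum.inr i)) ^ 2 =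
          y ^ 2 := fun i => by
        rw [Equiv.sumCompl_apply_inr, (hx i.1).resolve_left i.2]
      rw [Finset.sum_congr rfl fun i _ => h5 i, Finset.sum_const, Finset.card_univ, nsmul_eq_mul,
        hkdef]
    · have h5 : ∀ i : {i // x i = W}, x ((Equiv.sumCompl (fun i => x i = W)) (Sum.inl i)) ^ 2 =
          W ^ 2 := fun i => by
        rw [Equiv.sumCompl_apply_inl, i.2]
      rw [Finset.sum_congr rfl fun i _ => h5 i, Finset.sum_const, Finset.card_univ, nsmul_eq_mul,
        hqdef]
  have hKK : k * (y / W) ^ 2 + q = K := by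
    rw [hK, hsum]
    field_simp
  rw [hKK] at h2
  have hr0 : 0 < y / W := div_pos hy hW
  have hr1 : y / W < 1 := by rw [div_lt_one hW]; exact hyW
  have hkr : k * (y / W) ≤ 1 := by rw [← mul_div_assoc, div_le_one hW]; exact hk
  have hK0 : 0 < K := by rw [← hKK]; positivity
  have hμ0 : 0 < k * (y / W) := by positivity
  have hμK : k * (y / W) < K := by
    rw [← hKK]
    have : 0 < k * (y / W) ^ 2 := by positivity
    linarith
  refine ⟨k * (y / W) / K, (K - k * (y / W)) / K, div_pos hμ0 hK0,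
    div_pos (by linarith) hK0, ?_, fun α => ?_⟩
  · rw [← add_div, add_sub_cancel]; exact div_self hK0.ne'
  · have e1 : K * (k * (y / W) / K) = k * (y / W) := by field_simp
    have e2 : K * ((K - k * (y / W)) / K) = K - k * (y / W) := by field_simp
    rw [e1, e2]
    apply h2
    have h6 : W * (α + K * (s * W) - α) = ∑ i, x i * (s * x i) := by
      have h7 : ∑ i, x i * (s * x i) = s * ∑ i, x i ^ 2 := by
        rw [Finset.mul_sum]
        exact Finset.sum_congr rfl fun i _ => by ring
      rw [h7, hK]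
      field_simp
      ring
    rw [h6]
    obtain ⟨i0⟩ := Fintype.card_pos_iff.1 htop
    exact Finset.sum_lt_sum_of_nonempty ⟨i0.1, Finset.mem_univ _⟩ fun i _ =>
      mul_lt_mul_of_pos_left (hw i) (hx0 i)

/-- adding points of the largest weight to a tube -/
theorem tube_add {x : ι → ℝ} {w : ι → ℕ} {W s : ℝ} (hs : 0 < s)
    (hW : 0 < W) (hx0 : ∀ i, 0 < x i) (hne : 0 < Fintype.card {i // ¬ x i = W})
    (hw : ∀ i, s * x i < w i) {K K' : ℝ}
    (hK : K = (∑ i, x i ^ 2) / W ^ 2) (hK' : K' = (∑ i : {i // ¬ x i = W}, x i.1 ^ 2) / W ^ 2)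
    (h : ∃ a b : ℝ, 0 < a ∧ 0 < b ∧ a + b = 1 ∧
      ∀ α : ℝ, Emp (fun i : {i // ¬ x i = W} => w i.1)
        (Reg α (α + K' * (s * W)) (K' * a) (K' * b))) :
    ∃ a b : ℝ, 0 < a ∧ 0 < b ∧ a + b = 1 ∧
      ∀ α : ℝ, Emp w (Reg α (α + K * (s * W)) (K * a) (K * b)) := by
  classical
  obtain ⟨a, b, ha, hb, hab, hE⟩ := h
  obtain ⟨n, hn⟩ : ∃ n : ℝ, n = (Fintype.card {i // x i = W} : ℝ) := ⟨_, rfl⟩
  have hn0 : 0 ≤ n := by rw [hn]; exact Nat.cast_nonneg _
  obtain ⟨i0⟩ := Fintype.card_pos_iff.1 hne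
  have hQ0 : 0 < ∑ i : {i // ¬ x i = W}, x i.1 ^ 2 :=
    Finset.sum_pos (fun i _ => by have := hx0 i.1; positivity) ⟨i0, Finset.mem_univ _⟩
  have hK'0 : 0 < K' := by rw [hK']; positivity
  have hKn : K = n + K' := by
    have hsum : ∑ i, x i ^ 2 = n * W ^ 2 + ∑ i : {i // ¬ x i = W}, x i.1 ^ 2 := by
      rw [← (Equiv.sumCompl (fun i => x i = W)).sum_comp (fun i => x i ^ 2),
        Fintype.sum_sum_type]
      congr 1
      have h1 : ∀ i : {i // x i = W}, x ((Equiv.sumCompl (fun i => x i = W)) (Sum.inl i)) ^ 2 =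
          W ^ 2 := fun i => by
        rw [Equiv.sumCompl_apply_inl, i.2]
      rw [Finset.sum_congr rfl fun i _ => h1 i, Finset.sum_const, Finset.card_univ,
        nsmul_eq_mul, hn]
    rw [hK, hsum, hK']
    field_simp
  have hK0 : 0 < K := by linarith
  have hKa : 0 < K' * a := by positivity
  have hKb : 0 < K' * b := by positivity
  have hKab : K' * a + K' * b = K' := by rw [← mul_add, hab, mul_one]
  refine ⟨(n + K' * a) / K, K' * b / K, div_pos (by linarith) hK0, div_pos hKb hK0, ?_,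
    fun α => ?_⟩
  · rw [← add_div, add_assoc, hKab, ← hKn]; exact div_self hK0.ne'
  · have e1 : K * ((n + K' * a) / K) = n + K' * a := by field_simp
    have e2 : K * (K' * b / K) = K' * b := by field_simp
    rw [e1, e2]
    have hrest := hE (α + s * (n * W))
    have habs := Pool.Agent.TH207.NC.Emp_absorb (w := fun i : {i // ¬ x i = W} => w i.1)
      (fun i : {i // x i = W} => w i.1) (α := α) (β := α + K * (s * W)) (μ := n + K' * a)
      (ν := K' * b) (by linarith) (by
      refine hrest.mono ?_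
      rintro ⟨i, j⟩ ⟨⟨h1, h2, h3⟩, h4⟩
      simp only at h1 h2 h3 h4
      have hsumv : s * (n * W) ≤ ∑ i : {i // x i = W}, (w i.1 : ℝ) := by
        have h5 : ∑ _i : {i // x i = W}, s * W ≤ ∑ i : {i // x i = W}, (w i.1 : ℝ) :=
          Finset.sum_le_sum fun i _ => by
            have := hw i.1
            rw [i.2] at this
            exact this.le
        rw [Finset.sum_const, Finset.card_univ, nsmul_eq_mul, ← hn] at h5
        linarith
      refine ⟨h1, ?_, ?_⟩
      · simp only
        have e12 : n + K' * a - (Fintype.card {i // x i = W} : ℝ) = K' * a := by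
          rw [← hn]; ring
        rw [e12] at h4
        linarith
      · simp only
        have e13 : α + s * (n * W) + K' * (s * W) = α + K * (s * W) := by rw [hKn]; ring
        rw [e13]
        exact h3)
    have h6 := Pool.Agent.TH366.RC.Emp_reindex (Equiv.sumCompl (fun i => x i = W)).symm habs
    have h7 : (fun j => Sum.elim (fun i : {i // x i = W} => w i.1)
        (fun i : {i // ¬ x i = W} => w i.1) ((Equiv.sumCompl (fun i => x i = W)).symm j)) = w := by
      funext j
      by_cases hj : x j = W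
      · have h8 := Equiv.sumCompl_symm_apply_of_pos (p := fun i => x i = W) hj
        simp only [h8, Sum.elim_inl]
      · have h8 := Equiv.sumCompl_symm_apply_of_neg (p := fun i => x i = W) hj
        simp only [h8, Sum.elim_inr]
    rw [h7] at h6
    exact h6

/-- the points of largest weight `W` and a group of points of weight `y < W`, which is heavy or
accompanied by a point of weight `W`, form a tube -/
theorem tube_pair {x : ι → ℝ} {w : ι → ℕ} {W y s : ℝ} (hs : 0 < s)
    (hy : 0 < y) (hyW : y < W) (hx : ∀ i, x i = W ∨ x i = y)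
    (h : 0 < Fintype.card {i // x i = W} ∨ W < (Fintype.card {i // ¬ x i = W} : ℝ) * y)
    (hw : ∀ i, s * x i < w i) {K : ℝ} (hK : K = (∑ i, x i ^ 2) / W ^ 2) :
    ∃ a b : ℝ, 0 < a ∧ 0 < b ∧ a + b = 1 ∧
      ∀ α : ℝ, Emp w (Reg α (α + K * (s * W)) (K * a) (K * b)) := by
  classical
  have hW : 0 < W := hy.trans hyW
  have hx0 : ∀ i, 0 < x i := fun i => by rcases hx i with h | h <;> rw [h] <;> assumption
  rcases Nat.eq_zero_or_pos (Fintype.card {i // ¬ x i = W}) with hz | hp
  · -- only points of weight `W`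
    have htop : 0 < Fintype.card {i // x i = W} := by
      rcases h with h | h
      · exact h
      · rw [hz] at h
        push_cast at h
        rw [zero_mul] at h
        exact absurd h (not_lt.2 hW.le)
    have hall : ∀ i, x i = W := by
      intro i
      by_contra hcon
      have := Fintype.card_pos_iff.2 ⟨(⟨i, hcon⟩ : {i // ¬ x i = W})⟩
      omega
    obtain ⟨i0⟩ := Fintype.card_pos_iff.1 htop
    have hcard : 0 < Fintype.card ι := Fintype.card_pos_iff.2 ⟨i0.1⟩
    refine Pool.Agent.TH146.MN.tube_block (t := W) hs hW hW le_rfl hcard (Or.inl rfl)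
      (fun i => by have := hw i; rwa [hall i] at this) ?_
    rw [hK, Finset.sum_congr rfl fun i _ => by rw [hall i], Finset.sum_const, Finset.card_univ,
      nsmul_eq_mul]
  · by_cases hheavy : W < (Fintype.card {i // ¬ x i = W} : ℝ) * y
    · refine tube_add hs hW hx0 hp hw hK rfl ?_
      refine Pool.Agent.TH146.MN.tube_block (t := y) hs hy hW hyW.le hp (Or.inr hheavy)
        (fun i => by have := hw i.1; rwa [(hx i.1).resolve_left i.2] at this) ?_
      rw [Finset.sum_congr rfl fun i _ => by rw [(hx i.1).resolve_left i.2], Finset.sum_const,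
        Finset.card_univ, nsmul_eq_mul]
    · exact tube_light hs hy hyW hx (h.resolve_right hheavy) hp (not_lt.1 hheavy) hw hK

end Pool.Agent.W2helper31.NM
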